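import Pool.Agent.W443.J6.Stms

/-! Project J6, part CL12: classification of weighted homogeneous forms. -/

set_option autoImplicit false

open MvPolynomial Pool.Agent.H938R2.JC Pool.Agent.W443.J5 Pool.Agent.W443.J6

namespace Pool.Agent.W67.J6

universe u

variable {k : Type u} [Field k]

theorem th_coeff (p : Polynomial k) (i : ℕ) :
    (Polynomial.X * Polynomial.derivative p).coeff i = (i : k) * p.coeff i := by
  rcases i with _ | i
  · simp
  · rw [Polynomial.coeff_X_mul, Polynomial.coeff_derivative]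
    push_cast
    ring

theorem od_iff (D w : ℤ) (α φ : Polynomial k) : OD D w α φ ↔
    ∀ n, ∑ x ∈ Finset.HasAntidiagonal.antidiagonal n, ((D : k) * x.2 - w * x.1) * (α.coeff x.1 * φ.coeff x.2) =
      (Polynomial.X * α).coeff n := by
  unfold OD
  rw [← mul_right_inj' (Polynomial.X_ne_zero (R := k)), Polynomial.ext_iff]
  have e1 : Polynomial.X * (Polynomial.C (D : k) * α * Polynomial.derivative φ -
      Polynomial.C (w : k) * Polynomial.derivative α * φ) =
      Polynomial.C (D : k) * (α * (Polynomial.X * Polynomial.derivative φ)) -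
        Polynomial.C (w : k) * ((Polynomial.X * Polynomial.derivative α) * φ) := by ring
  rw [e1]
  refine forall_congr' fun n => ?_
  rw [Polynomial.coeff_sub, Polynomial.coeff_C_mul, Polynomial.coeff_C_mul, Polynomial.coeff_mul,
    Polynomial.coeff_mul]
  have e2 : (D : k) * ∑ x ∈ Finset.HasAntidiagonal.antidiagonal n, α.coeff x.1 *
      (Polynomial.X * Polynomial.derivative φ).coeff x.2 -
      (w : k) * ∑ x ∈ Finset.HasAntidiagonal.antidiagonal n, (Polynomial.X * Polynomial.derivative α).coeff x.1 *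
        φ.coeff x.2 =
      ∑ x ∈ Finset.HasAntidiagonal.antidiagonal n, ((D : k) * x.2 - w * x.1) * (α.coeff x.1 * φ.coeff x.2) := by
    rw [Finset.mul_sum, Finset.mul_sum, ← Finset.sum_sub_distrib]
    refine Finset.sum_congr rfl fun x _ => ?_
    rw [th_coeff, th_coeff]
    ring
  rw [e2]

theorem reduce (D w : ℤ) (α φ : Polynomial k) (W0 V : ℕ)
    (hα : ∀ v, α.coeff v ≠ 0 → v ≡ V [MOD W0]) (h : OD D w α φ) :
    ∃ φ1 : Polynomial k, OD D w α φ1 ∧ ∀ i, φ1.coeff i ≠ 0 → i ≡ 1 [MOD W0] := by
  classical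
  set φ1 : Polynomial k := ∑ i ∈ φ.support.filter (fun i => i ≡ 1 [MOD W0]),
    Polynomial.monomial i (φ.coeff i) with hφ1
  have hco : ∀ b, φ1.coeff b = if b ≡ 1 [MOD W0] then φ.coeff b else 0 := by
    intro b
    rw [hφ1, Polynomial.finsetSum_coeff]
    simp only [Polynomial.coeff_monomial]
    rw [Finset.sum_ite_eq' (φ.support.filter (fun i => i ≡ 1 [MOD W0])) b fun i => φ.coeff i]
    by_cases hb : b ≡ 1 [MOD W0]
    · rw [if_pos hb]
      by_cases hb2 : φ.coeff b = 0
      · rw [hb2, ite_self]
      · rw [if_pos]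
        rw [Finset.mem_filter, Polynomial.mem_support_iff]
        exact ⟨hb2, hb⟩
    · rw [if_neg hb, if_neg]
      rw [Finset.mem_filter]
      exact fun h => hb h.2
  refine ⟨φ1, ?_, ?_⟩
  · rw [od_iff] at h ⊢
    intro n
    by_cases hn : n ≡ V + 1 [MOD W0]
    · rw [← h n]
      refine Finset.sum_congr rfl fun x hx => ?_
      rw [Finset.HasAntidiagonal.mem_antidiagonal] at hx
      by_cases ha : α.coeff x.1 = 0
      · rw [ha, zero_mul, zero_mul]
      · have h1 := hα _ ha
        have h2 : x.2 ≡ 1 [MOD W0] := by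
          rw [← hx] at hn
          exact Nat.ModEq.add_left_cancel h1 hn
        rw [hco, if_pos h2]
    · have h0 : (Polynomial.X * α).coeff n = 0 := by
        rcases n with _ | n
        · simp
        · rw [Polynomial.coeff_X_mul]
          by_contra hne
          exact hn ((hα _ hne).add_right 1)
      rw [h0]
      refine Finset.sum_eq_zero fun x hx => ?_
      rw [Finset.HasAntidiagonal.mem_antidiagonal] at hx
      by_cases ha : α.coeff x.1 = 0
      · rw [ha, zero_mul, mul_zero]
      · have h1 := hα _ ha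
        have h2 : ¬ x.2 ≡ 1 [MOD W0] := by
          intro h3
          apply hn
          rw [← hx]
          exact h1.add h3
        rw [hco, if_neg h2, mul_zero, mul_zero]
  · intro i hi
    rw [hco] at hi
    by_contra hne
    rw [if_neg hne] at hi
    exact hi rfl

theorem ev1_coeff (A : MvPolynomial (Fin 2) k) (v : ℕ) :
    (aeval ![1, Polynomial.X] A : Polynomial k).coeff v =
      ∑ m ∈ A.support, if m 1 = v then coeff m A else 0 := by
  rw [aeval_def, eval₂_eq', Polynomial.finsetSum_coeff]
  refine Finset.sum_congr rfl fun m _ => ?_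
  rw [Fin.prod_univ_two]
  simp only [Matrix.cons_val_zero, Matrix.cons_val_one, one_pow, one_mul]
  rw [Polynomial.algebraMap_eq, Polynomial.coeff_C_mul, Polynomial.coeff_X_pow]
  by_cases h : m 1 = v
  · rw [if_pos h, if_pos h.symm, mul_one]
  · rw [if_neg h, if_neg (Ne.symm h), mul_zero]

theorem fin2_ext {m m' : Fin 2 →₀ ℕ} (h0 : m 0 = m' 0) (h1 : m 1 = m' 1) : m = m' := by
  ext i
  fin_cases i
  · exact h0
  · exact h1

theorem hcoeff (A : MvPolynomial (Fin 2) k) (W0 W1 : ℕ) (D : ℤ) (hW0 : 1 ≤ W0)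
    (hA : ∀ m, coeff m A ≠ 0 → (W0 : ℤ) * (m 0 : ℤ) + (W1 : ℤ) * (m 1 : ℤ) = D)
    (m : Fin 2 →₀ ℕ) (hm : (W0 : ℤ) * (m 0 : ℤ) + (W1 : ℤ) * (m 1 : ℤ) = D) :
    (aeval ![1, Polynomial.X] A : Polynomial k).coeff (m 1) = coeff m A := by
  rw [ev1_coeff]
  rw [Finset.sum_eq_single m]
  · rw [if_pos rfl]
  · intro m' hm' hne
    rw [mem_support_iff] at hm'
    rw [if_neg]
    intro h1
    apply hne
    refine fin2_ext ?_ h1
    have h2 := hA m' hm'
    rw [h1] at h2
    have h3 : (W0 : ℤ) * (m' 0 : ℤ) = W0 * (m 0 : ℤ) := by linarith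
    have h4 : (W0 : ℤ) ≠ 0 := by positivity
    exact_mod_cast mul_left_cancel₀ h4 h3
  · intro h
    rw [notMem_support_iff] at h
    rw [h, ite_self]

theorem hcoeff0 (A : MvPolynomial (Fin 2) k) (v : ℕ)
    (h : (aeval ![1, Polynomial.X] A : Polynomial k).coeff v ≠ 0) :
    ∃ m, coeff m A ≠ 0 ∧ m 1 = v := by
  rw [ev1_coeff] at h
  obtain ⟨m, hm, hne⟩ := Finset.exists_ne_zero_of_sum_ne_zero h
  rw [mem_support_iff] at hm
  refine ⟨m, hm, ?_⟩
  by_contra h1
  rw [if_neg h1] at hne
  exact hne rfl

theorem mono_of_single [CharZero k] (A : MvPolynomial (Fin 2) k) (W0 W1 : ℕ) (D : ℤ) (hW0 : 1 ≤ W0)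
    (hA0 : A ≠ 0)
    (hA : ∀ m, coeff m A ≠ 0 → (W0 : ℤ) * (m 0 : ℤ) + (W1 : ℤ) * (m 1 : ℤ) = D)
    (hs : ∃ v0, ∀ v, (aeval ![1, Polynomial.X] A : Polynomial k).coeff v ≠ 0 → v = v0) :
    ∃ (m : Fin 2 →₀ ℕ) (κ : k), κ ≠ 0 ∧ A = monomial m κ := by
  obtain ⟨v0, hv0⟩ := hs
  obtain ⟨m0, hm0⟩ := ne_zero_iff.1 hA0
  refine ⟨m0, coeff m0 A, hm0, ?_⟩
  ext m
  rw [coeff_monomial]
  by_cases h : m0 = m
  · rw [if_pos h, h]
  · rw [if_neg h]
    by_contra hne
    apply h
    have h1 := hv0 (m 1) (by rw [hcoeff A W0 W1 D hW0 hA m (hA m hne)]; exact hne)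
    have h2 := hv0 (m0 1) (by rw [hcoeff A W0 W1 D hW0 hA m0 (hA m0 hm0)]; exact hm0)
    have h3 := hA m hne
    have h4 := hA m0 hm0
    rw [h1] at h3
    rw [h2] at h4
    refine fin2_ext ?_ (h2.trans h1.symm)
    have h5 : (W0 : ℤ) * (m0 0 : ℤ) = W0 * (m 0 : ℤ) := by linarith
    have h6 : (W0 : ℤ) ≠ 0 := by positivity
    exact_mod_cast mul_left_cancel₀ h6 h5

/-- the basic alternative -/
theorem main_alt [CharZero k] (A : MvPolynomial (Fin 2) k) (φ : Polynomial k)
    (W0 W1 : ℕ) (D : ℤ) (h0 : 2 ≤ W0) (h1 : 1 ≤ W1) (hcop : Nat.Coprime W0 W1) (hD : 0 < D)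
    (hA0 : A ≠ 0)
    (hA : ∀ m, coeff m A ≠ 0 → (W0 : ℤ) * (m 0 : ℤ) + (W1 : ℤ) * (m 1 : ℤ) = D)
    (hod : OD D (W0 + W1) (aeval ![1, Polynomial.X] A) φ) :
    (∃ v0, ∀ v, (aeval ![1, Polynomial.X] A : Polynomial k).coeff v ≠ 0 → v = v0) ∨
    ∃ φ1 : Polynomial k, OD D (W0 + W1) (aeval ![1, Polynomial.X] A) φ1 ∧
      (∀ i, φ1.coeff i ≠ 0 → i ≡ 1 [MOD W0]) ∧ φ1 ≠ 0 ∧
      W0 + 1 ≤ φ1.natDegree ∧
      D * (φ1.natDegree : ℤ) = (W0 + W1) *
        ((aeval ![1, Polynomial.X] A : Polynomial k).natDegree : ℤ) ∧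
      (W1 : ℤ) * ((aeval ![1, Polynomial.X] A : Polynomial k).natDegree : ℤ) ≤ D ∧
      (W1 : ℤ) * (φ1.natDegree : ℤ) ≤ W0 + W1 := by
  set α : Polynomial k := aeval ![1, Polynomial.X] A with hα
  have hex : ∀ v, α.coeff v ≠ 0 → ∃ u : ℕ, (W0 : ℤ) * u + (W1 : ℤ) * v = D := by
    intro v hv
    obtain ⟨m, hm, hm1⟩ := hcoeff0 A v hv
    exact ⟨m 0, by rw [← hm1]; exact hA m hm⟩
  have hα0 : α ≠ 0 := by
    obtain ⟨m0, hm0⟩ := ne_zero_iff.1 hA0
    intro h
    apply hm0
    rw [← hcoeff A W0 W1 D (by omega) hA m0 (hA m0 hm0), ← hα, h, Polynomial.coeff_zero]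
  set V := α.natDegree with hV
  have hVne : α.coeff V ≠ 0 := by
    rw [hV, Polynomial.coeff_natDegree]
    exact Polynomial.leadingCoeff_ne_zero.2 hα0
  have hcl : ∀ v, α.coeff v ≠ 0 → v ≡ V [MOD W0] := by
    intro v hv
    obtain ⟨u, hu⟩ := hex v hv
    obtain ⟨u', hu'⟩ := hex V hVne
    have h2 : W1 * v ≡ W1 * V [MOD W0] := by
      rw [← Int.natCast_modEq_iff]
      have : ((W1 * v : ℕ) : ℤ) - ((W1 * V : ℕ) : ℤ) = W0 * ((u' : ℤ) - u) := by
        push_cast
        linarith
      exact (Int.modEq_iff_dvd.2 ⟨u' - u, this⟩).symm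
    exact Nat.ModEq.cancel_left_of_coprime hcop h2
  obtain ⟨φ1, hφ, hsup⟩ := reduce D (W0 + W1) α φ W0 V hcl hod
  have hφ0 : φ1 ≠ 0 := by
    intro h
    apply hα0
    rw [h] at hφ
    unfold OD at hφ
    simpa using hφ.symm
  set e := φ1.natDegree with he
  have hene : φ1.coeff e ≠ 0 := by
    rw [he, Polynomial.coeff_natDegree]
    exact Polynomial.leadingCoeff_ne_zero.2 hφ0
  have he1 := hsup e hene
  have hmod := (od_iff _ _ _ _).1 hφ
  have hepos : e ≠ 0 := by
    intro h
    rw [h] at he1
    unfold Nat.ModEq at he1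
    rw [Nat.zero_mod, Nat.mod_eq_of_lt (by omega)] at he1
    omega
  rcases Nat.lt_or_ge e 2 with he2 | he2
  · left
    have he3 : e = 1 := by omega
    have hone : ∀ b, φ1.coeff b ≠ 0 → b = 1 := by
      intro b hb
      have hb1 : b ≤ 1 := by
        rw [← he3, he]
        exact Polynomial.le_natDegree_of_ne_zero hb
      have hb2 := hsup b hb
      by_contra hne
      have : b = 0 := by omega
      rw [this] at hb2
      unfold Nat.ModEq at hb2
      rw [Nat.zero_mod, Nat.mod_eq_of_lt (by omega)] at hb2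
      omega
    refine ⟨V, ?_⟩
    have key : ∀ v, α.coeff v ≠ 0 → ((D : k) - ((W0 + W1 : ℤ) : k) * v) * φ1.coeff 1 = 1 := by
      intro v hv
      have h3 := hmod (v + 1)
      rw [Finset.sum_eq_single (v, 1), Polynomial.coeff_X_mul] at h3
      · have h4 : (((D : k) - ((W0 + W1 : ℤ) : k) * v) * φ1.coeff 1) * α.coeff v =
          1 * α.coeff v := by
          rw [one_mul]
          refine Eq.trans ?_ h3
          push_cast
          ring
        exact mul_right_cancel₀ hv h4
      · rintro ⟨a, b⟩ hx hne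
        rw [Finset.HasAntidiagonal.mem_antidiagonal] at hx
        by_cases hb : φ1.coeff b = 0
        · simp only [hb, mul_zero]
        · exfalso
          have := hone b hb
          apply hne
          simp only at hx
          ext <;> simp <;> omega
      · intro h
        exact absurd (by rw [Finset.HasAntidiagonal.mem_antidiagonal]) h
    intro v hv
    have h3 := key v hv
    have h4 := key V hVne
    have hp : φ1.coeff 1 ≠ 0 := by
      intro h
      rw [h, mul_zero] at h3
      exact zero_ne_one h3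
    have h5 := mul_right_cancel₀ hp (h3.trans h4.symm)
    have h6 : ((W0 + W1 : ℤ) : k) * v = ((W0 + W1 : ℤ) : k) * V := by linear_combination -h5
    have h7 : ((W0 + W1 : ℤ) : k) ≠ 0 := by
      have : (W0 + W1 : ℤ) ≠ 0 := by positivity
      exact_mod_cast this
    exact_mod_cast mul_left_cancel₀ h7 h6
  · right
    have hDe : D * (e : ℤ) = (W0 + W1) * (V : ℤ) := by
      have h3 := hmod (V + e)
      rw [Finset.sum_eq_single (V, e)] at h3
      · have h4 : (Polynomial.X * α).coeff (V + e) = 0 := by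
          obtain ⟨e', he'⟩ : ∃ e', e = e' + 1 := ⟨e - 1, by omega⟩
          rw [he', ← add_assoc, Polynomial.coeff_X_mul]
          apply Polynomial.coeff_eq_zero_of_natDegree_lt
          omega
        rw [h4] at h3
        have h5 := (mul_eq_zero.1 h3).resolve_right (mul_ne_zero hVne hene)
        have h6 : ((D * (e : ℤ) : ℤ) : k) = (((W0 + W1) * (V : ℤ) : ℤ) : k) := by
          push_cast
          push_cast at h5
          linear_combination h5
        exact_mod_cast h6
      · rintro ⟨a, b⟩ hx hne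
        rw [Finset.HasAntidiagonal.mem_antidiagonal] at hx
        by_cases hb : φ1.coeff b = 0
        · simp only [hb, mul_zero]
        by_cases ha : α.coeff a = 0
        · simp only [ha, zero_mul, mul_zero]
        exfalso
        have h5 := Polynomial.le_natDegree_of_ne_zero hb
        have h6 := Polynomial.le_natDegree_of_ne_zero ha
        rw [← he] at h5
        rw [← hV] at h6
        apply hne
        simp only at hx
        ext <;> simp <;> omega
      · intro h
        exact absurd (by rw [Finset.HasAntidiagonal.mem_antidiagonal]) h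
    have hWV : (W1 : ℤ) * (V : ℤ) ≤ D := by
      obtain ⟨u, hu⟩ := hex V hVne
      have : 0 ≤ (W0 : ℤ) * u := by positivity
      linarith
    refine ⟨φ1, hφ, hsup, hφ0, ?_, hDe, hWV, ?_⟩
    · have h3 : W0 ∣ e - 1 := (Nat.modEq_iff_dvd' (by omega)).1 he1.symm
      have := Nat.le_of_dvd (by omega) h3
      omega
    · have h3 : D * ((W1 : ℤ) * (e : ℤ)) ≤ D * (W0 + W1) := by
        calc D * ((W1 : ℤ) * (e : ℤ)) = W1 * (D * e) := by ring
          _ = (W0 + W1) * (W1 * V) := by rw [hDe]; ring
          _ ≤ (W0 + W1) * D := mul_le_mul_of_nonneg_left hWV (by positivity)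
          _ = D * (W0 + W1) := by ring
      exact le_of_mul_le_mul_left h3 hD

theorem cl1 : S_CL1.{u} := by
  intro k _ _ A φ W0 W1 D h0 h1 hcop hD hA0 hA hod
  rcases main_alt A φ W0 W1 D h0 (by omega) hcop hD hA0 hA hod with hs | ⟨φ1, -, -, -, h3, -, -, h4⟩
  · obtain ⟨m, κ, -, h⟩ := mono_of_single A W0 W1 D (by omega) hA0 hA hs
    exact ⟨m, κ, h⟩
  · exfalso
    have h5 : (W1 : ℤ) * (W0 + 1) ≤ W0 + W1 := by
      refine le_trans (mul_le_mul_of_nonneg_left ?_ (by positivity)) h4
      exact_mod_cast h3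
    have h6 : (2 : ℤ) ≤ W0 := by exact_mod_cast h0
    have h7 : (2 : ℤ) ≤ W1 := by exact_mod_cast h1
    nlinarith

/-- the model solution -/
theorem model_ode (κ c p r : k) (n i j : ℕ) (D : ℤ) (hr : r = p * c)
    (hD : (n : ℤ) * i + j = D) :
    Polynomial.X * Polynomial.derivative (Polynomial.C κ * Polynomial.X ^ j *
        (1 + Polynomial.C c * Polynomial.X ^ n) ^ i) *
        (Polynomial.C p + Polynomial.C r * Polynomial.X ^ n) =
      (Polynomial.C κ * Polynomial.X ^ j * (1 + Polynomial.C c * Polynomial.X ^ n) ^ i) *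
        (Polynomial.C ((D : k) * r) * Polynomial.X ^ n + Polynomial.C ((j : k) * p)) := by
  have e1 : ∀ m : ℕ, Polynomial.X * Polynomial.derivative (Polynomial.X ^ m : Polynomial k) =
      Polynomial.C (m : k) * Polynomial.X ^ m := by
    intro m
    rw [Polynomial.derivative_X_pow]
    rcases m with _ | m
    · simp
    · rw [Nat.add_sub_cancel, pow_succ]
      ring
  have e2 : Polynomial.X * Polynomial.derivative
      ((1 + Polynomial.C c * Polynomial.X ^ n : Polynomial k) ^ i) *
        (1 + Polynomial.C c * Polynomial.X ^ n) =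
      Polynomial.C (i : k) * (1 + Polynomial.C c * Polynomial.X ^ n) ^ i *
        (Polynomial.C c * (Polynomial.C (n : k) * Polynomial.X ^ n)) := by
    rw [Polynomial.derivative_pow]
    have e3 : Polynomial.derivative (1 + Polynomial.C c * Polynomial.X ^ n : Polynomial k) =
        Polynomial.C c * Polynomial.derivative (Polynomial.X ^ n) := by
      rw [Polynomial.derivative_add, Polynomial.derivative_one, zero_add,
        Polynomial.derivative_C_mul]
    rw [e3, ← e1 n]
    rcases i with _ | i
    · simp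
    · rw [Nat.add_sub_cancel, pow_succ]
      ring
  have e4 : Polynomial.derivative (Polynomial.C κ * Polynomial.X ^ j *
        (1 + Polynomial.C c * Polynomial.X ^ n) ^ i) =
      Polynomial.C κ * (Polynomial.derivative (Polynomial.X ^ j) *
        (1 + Polynomial.C c * Polynomial.X ^ n) ^ i + Polynomial.X ^ j *
          Polynomial.derivative ((1 + Polynomial.C c * Polynomial.X ^ n) ^ i)) := by
    rw [mul_assoc, Polynomial.derivative_C_mul, Polynomial.derivative_mul]
  have e5 : (Polynomial.C p + Polynomial.C r * Polynomial.X ^ n : Polynomial k) =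
      Polynomial.C p * (1 + Polynomial.C c * Polynomial.X ^ n) := by
    rw [hr, Polynomial.C_mul]
    ring
  have e6 : (Polynomial.C ((D : k) * r) : Polynomial k) =
      (Polynomial.C (n : k) * Polynomial.C (i : k) + Polynomial.C (j : k)) *
        (Polynomial.C p * Polynomial.C c) := by
    rw [hr, ← hD]
    push_cast
    simp only [← Polynomial.C_mul, ← Polynomial.C_add]
  rw [e4, e5, e6, Polynomial.C_mul]
  linear_combination (Polynomial.C κ * Polynomial.C p * (1 + Polynomial.C c * Polynomial.X ^ n) ^ i *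
    (1 + Polynomial.C c * Polynomial.X ^ n)) * e1 j +
    (Polynomial.C κ * Polynomial.C p * Polynomial.X ^ j) * e2

/-- uniqueness -/
theorem ode_unique [CharZero k] (δ : Polynomial k) (p r : k) (n j : ℕ) (D : ℤ) (hn : 1 ≤ n)
    (hp : p ≠ 0)
    (h : Polynomial.X * Polynomial.derivative δ *
        (Polynomial.C p + Polynomial.C r * Polynomial.X ^ n) =
      δ * (Polynomial.C ((D : k) * r) * Polynomial.X ^ n + Polynomial.C ((j : k) * p)))
    (hj : δ.coeff j = 0) : δ = 0 := by
  by_contra hne
  set t := δ.natTrailingDegree with ht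
  have htne : δ.coeff t ≠ 0 := by
    have := (Polynomial.trailingCoeff_nonzero_iff_nonzero (p := δ)).2 hne
    exact this
  have hlt : ∀ b, b < t → δ.coeff b = 0 := fun b hb =>
    Polynomial.coeff_eq_zero_of_lt_natTrailingDegree hb
  have e1 : Polynomial.X * Polynomial.derivative δ *
        (Polynomial.C p + Polynomial.C r * Polynomial.X ^ n) =
      Polynomial.C p * (Polynomial.X * Polynomial.derivative δ) +
        Polynomial.C r * ((Polynomial.X * Polynomial.derivative δ) * Polynomial.X ^ n) := by ring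
  have e2 : δ * (Polynomial.C ((D : k) * r) * Polynomial.X ^ n + Polynomial.C ((j : k) * p)) =
      Polynomial.C ((D : k) * r) * (δ * Polynomial.X ^ n) + Polynomial.C ((j : k) * p) * δ := by
    ring
  rw [e1, e2] at h
  have h1 := congrArg (fun q => Polynomial.coeff q t) h
  simp only [Polynomial.coeff_add, Polynomial.coeff_C_mul, Polynomial.coeff_mul_X_pow'] at h1
  rw [th_coeff] at h1
  have h2 : (if n ≤ t then (Polynomial.X * Polynomial.derivative δ).coeff (t - n) else 0) = 0 := by
    split_ifs with h3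
    · rw [th_coeff, hlt _ (by omega), mul_zero]
    · rfl
  have h3 : (if n ≤ t then δ.coeff (t - n) else 0) = 0 := by
    split_ifs with h3
    · rw [hlt _ (by omega)]
    · rfl
  rw [h2, h3, mul_zero, mul_zero, add_zero, zero_add] at h1
  have h4 : (t : k) * (p * δ.coeff t) = (j : k) * (p * δ.coeff t) := by linear_combination h1
  have h5 := mul_right_cancel₀ (mul_ne_zero hp htne) h4
  have h6 : t = j := by exact_mod_cast h5
  rw [h6] at htne
  exact htne hj

theorem T_hom (κ c : k) (n i j : ℕ) (m : Fin 2 →₀ ℕ)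
    (hm : coeff m (C κ * X 1 ^ j * (X 0 + C c * X 1 ^ n) ^ i : MvPolynomial (Fin 2) k) ≠ 0) :
    n * m 0 + m 1 = n * i + j := by
  have h1 : IsWeightedHomogeneous ![n, 1]
      (C κ * X 1 ^ j * (X 0 + C c * X 1 ^ n) ^ i : MvPolynomial (Fin 2) k) (n * i + j) := by
    have a1 : IsWeightedHomogeneous ![n, 1] (X 1 : MvPolynomial (Fin 2) k) 1 := by
      simpa using isWeightedHomogeneous_X k ![n, 1] (1 : Fin 2)
    have a0 : IsWeightedHomogeneous ![n, 1] (X 0 : MvPolynomial (Fin 2) k) n := by
      simpa using isWeightedHomogeneous_X k ![n, 1] (0 : Fin 2)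
    have a2 : IsWeightedHomogeneous ![n, 1] (C κ * X 1 ^ j : MvPolynomial (Fin 2) k) j := by
      have := (isWeightedHomogeneous_C ![n, 1] κ).mul (a1.pow j)
      simpa using this
    have a3 : IsWeightedHomogeneous ![n, 1] (C c * X 1 ^ n : MvPolynomial (Fin 2) k) n := by
      have := (isWeightedHomogeneous_C ![n, 1] c).mul (a1.pow n)
      simpa using this
    have a4 : IsWeightedHomogeneous ![n, 1]
        ((X 0 + C c * X 1 ^ n) ^ i : MvPolynomial (Fin 2) k) (i * n) := by
      have := (a0.add a3).pow i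
      simpa using this
    have := a2.mul a4
    have e : n * i + j = j + i * n := by ring
    rw [e]
    exact this
  have h2 := h1 hm
  rw [Finsupp.weight_apply, Finsupp.sum_fintype _ _ (by simp), Fin.sum_univ_two] at h2
  simp only [Matrix.cons_val_zero, Matrix.cons_val_one, smul_eq_mul, mul_one] at h2
  rw [mul_comm n (m 0)]
  exact h2

theorem cl2 : S_CL2.{u} := by
  intro k _ _ A φ n D hn hD hA0 hA hod
  have hA' : ∀ m, coeff m A ≠ 0 → (n : ℤ) * (m 0 : ℤ) + ((1 : ℕ) : ℤ) * (m 1 : ℤ) = D := by
    intro m hm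
    rw [Nat.cast_one, one_mul]
    exact hA m hm
  have hod' : OD D (n + (1 : ℕ)) (aeval ![1, Polynomial.X] A) φ := by
    rw [Nat.cast_one]; exact hod
  rcases main_alt A φ n 1 D hn le_rfl (Nat.coprime_one_right n) hD hA0 hA' hod' with
    hs | ⟨φ1, hφ, hsup, hφ0, h3, h4, h5, h6⟩
  · obtain ⟨m, κ, hκ, h⟩ := mono_of_single A n 1 D (by omega) hA0 hA' hs
    refine ⟨κ, 0, m 0, m 1, hκ, ?_⟩
    rw [h, monomial_eq, Finsupp.prod_fintype _ _ (by simp), Fin.prod_univ_two]
    simp only [C_0, zero_mul, add_zero]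
    ring
  · set α : Polynomial k := aeval ![1, Polynomial.X] A with hα
    rw [Nat.cast_one] at hφ h4 h6
    rw [one_mul] at h6
    have he : φ1.natDegree = n + 1 := by
      have : φ1.natDegree ≤ n + 1 := by exact_mod_cast h6
      omega
    have hV : (α.natDegree : ℤ) = D := by
      rw [he] at h4
      push_cast at h4
      have h7 : ((n : ℤ) + 1) * (α.natDegree : ℤ) = (n + 1) * D := by linarith
      exact mul_left_cancel₀ (by positivity) h7
    set p := φ1.coeff 1 with hp
    set r := φ1.coeff (n + 1) with hr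
    have hφ1 : φ1 = Polynomial.C p * Polynomial.X + Polynomial.C r * Polynomial.X ^ (n + 1) := by
      ext b
      rw [Polynomial.coeff_add, Polynomial.coeff_C_mul, Polynomial.coeff_C_mul,
        Polynomial.coeff_X_pow, Polynomial.coeff_X]
      by_cases hb1 : b = 1
      · rw [hb1, if_pos rfl, if_neg (by omega), ← hp]; ring
      by_cases hb2 : b = n + 1
      · rw [hb2, if_neg (by omega), if_pos rfl, ← hr]; ring
      rw [if_neg (Ne.symm hb1), if_neg hb2, mul_zero, mul_zero, add_zero]
      by_contra hne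
      have h7 := hsup b hne
      have h8 : b ≤ n + 1 := by
        rw [← he]
        exact Polynomial.le_natDegree_of_ne_zero hne
      rcases Nat.eq_zero_or_pos b with hb0 | hb0
      · rw [hb0] at h7
        unfold Nat.ModEq at h7
        rw [Nat.zero_mod, Nat.mod_eq_of_lt (by omega)] at h7
        omega
      · have h9 : n ∣ b - 1 := (Nat.modEq_iff_dvd' (by omega)).1 h7.symm
        have := Nat.le_of_dvd (by omega) h9
        omega
    have hα0 : α ≠ 0 := by
      obtain ⟨m0, hm0⟩ := ne_zero_iff.1 hA0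
      intro h
      apply hm0
      rw [← hcoeff A n 1 D (by omega) hA' m0 (hA' m0 hm0), ← hα, h, Polynomial.coeff_zero]
    set j := α.natTrailingDegree with hj
    have hjne : α.coeff j ≠ 0 := (Polynomial.trailingCoeff_nonzero_iff_nonzero (p := α)).2 hα0
    have hlt : ∀ b, b < j → α.coeff b = 0 := fun b hb =>
      Polynomial.coeff_eq_zero_of_lt_natTrailingDegree hb
    -- the lowest coefficient
    have hlow : ((D : k) - ((n : k) + 1) * j) * p = 1 := by
      have h7 := (od_iff _ _ _ _).1 hφ (j + 1)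
      rw [Finset.sum_eq_single (j, 1), Polynomial.coeff_X_mul] at h7
      · have h8 : (((D : k) - ((n : k) + 1) * j) * p) * α.coeff j = 1 * α.coeff j := by
          rw [one_mul]
          refine Eq.trans ?_ h7
          push_cast
          ring
        exact mul_right_cancel₀ hjne h8
      · rintro ⟨a, b⟩ hx hne
        rw [Finset.HasAntidiagonal.mem_antidiagonal] at hx
        simp only at hx
        by_cases ha : α.coeff a = 0
        · simp only [ha, zero_mul, mul_zero]
        by_cases hb : φ1.coeff b = 0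
        · simp only [hb, mul_zero]
        exfalso
        have h8 : j ≤ a := by
          by_contra hcon
          exact ha (hlt a (by omega))
        have h9 : b ≠ 0 := by
          intro h0
          have h7 := hsup b hb
          rw [h0] at h7
          unfold Nat.ModEq at h7
          rw [Nat.zero_mod, Nat.mod_eq_of_lt (by omega)] at h7
          omega
        apply hne
        ext <;> simp <;> omega
      · intro h
        exact absurd (by rw [Finset.HasAntidiagonal.mem_antidiagonal]) h
    have hp0 : p ≠ 0 := by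
      intro h
      rw [h, mul_zero] at hlow
      exact zero_ne_one hlow
    obtain ⟨m1, hm1, hm1j⟩ := hcoeff0 A j hjne
    have hij : (n : ℤ) * (m1 0) + j = D := by
      rw [← hm1j]
      exact hA m1 hm1
    set i := m1 0 with hi
    -- the equation
    have hode : Polynomial.X * Polynomial.derivative α *
        (Polynomial.C p + Polynomial.C r * Polynomial.X ^ n) =
      α * (Polynomial.C ((D : k) * r) * Polynomial.X ^ n + Polynomial.C ((j : k) * p)) := by
      unfold OD at hφ
      have d1 : Polynomial.derivative φ1 =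
          Polynomial.C p + Polynomial.C r * (Polynomial.C ((n : k) + 1) * Polynomial.X ^ n) := by
        rw [hφ1, Polynomial.derivative_add, Polynomial.derivative_C_mul,
          Polynomial.derivative_C_mul, Polynomial.derivative_X, Polynomial.derivative_X_pow]
        rw [Nat.add_sub_cancel, mul_one]
        push_cast
        rfl
      rw [d1] at hφ
      have hlow' : (Polynomial.C (D : k) - (Polynomial.C (n : k) + 1) * Polynomial.C (j : k)) *
          Polynomial.C p = 1 := by
        have h7 := congrArg (Polynomial.C (R := k)) hlow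
        simp only [Polynomial.C_mul, Polynomial.C_sub, Polynomial.C_add, Polynomial.C_1] at h7
        exact h7
      have hne : (Polynomial.C ((n : k) + 1) : Polynomial k) ≠ 0 := by
        rw [Ne, Polynomial.C_eq_zero]
        exact Nat.cast_add_one_ne_zero n
      apply mul_left_cancel₀ hne
      have c1 : (((n : ℤ) + 1 : ℤ) : k) = (n : k) + 1 := by push_cast; rfl
      rw [c1] at hφ
      have hφ2 : φ1 = Polynomial.X * (Polynomial.C p + Polynomial.C r * Polynomial.X ^ n) := by
        rw [hφ1]; ring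
      rw [hφ2] at hφ
      simp only [Polynomial.C_mul, Polynomial.C_add, Polynomial.C_1] at hφ ⊢
      linear_combination -hφ + α * hlow'
    set c := r / p with hc
    have hrc : r = p * c := by rw [hc]; field_simp
    set κ := α.coeff j with hκ
    set τ : Polynomial k := Polynomial.C κ * Polynomial.X ^ j *
        (1 + Polynomial.C c * Polynomial.X ^ n) ^ i with hτ
    have hodeτ := model_ode κ c p r n i j D hrc hij
    rw [← hτ] at hodeτ
    have hδ : α - τ = 0 := by
      apply ode_unique (α - τ) p r n j D (by omega) hp0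
      · rw [Polynomial.derivative_sub]
        linear_combination hode - hodeτ
      · rw [Polynomial.coeff_sub, sub_eq_zero, ← hκ, hτ, mul_assoc, Polynomial.coeff_C_mul,
          mul_comm (Polynomial.X ^ j), Polynomial.coeff_mul_X_pow', if_pos le_rfl, Nat.sub_self,
          Polynomial.coeff_zero_eq_eval_zero]
        simp only [Polynomial.eval_pow, Polynomial.eval_add, Polynomial.eval_one,
          Polynomial.eval_mul, Polynomial.eval_C, Polynomial.eval_X]
        rw [zero_pow (by omega), mul_zero, add_zero, one_pow, mul_one]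
    refine ⟨κ, c, i, j, hjne, ?_⟩
    set T : MvPolynomial (Fin 2) k := C κ * X 1 ^ j * (X 0 + C c * X 1 ^ n) ^ i with hT
    have hTh : ∀ m, coeff m T ≠ 0 → (n : ℤ) * (m 0 : ℤ) + ((1 : ℕ) : ℤ) * (m 1 : ℤ) = D := by
      intro m hm
      have := T_hom κ c n i j m hm
      rw [← hij, Nat.cast_one, one_mul]
      exact_mod_cast this
    have hTe : (aeval ![1, Polynomial.X] T : Polynomial k) = τ := by
      rw [hT, hτ]
      simp [Polynomial.algebraMap_eq]
    ext m
    by_cases hm : (n : ℤ) * (m 0 : ℤ) + ((1 : ℕ) : ℤ) * (m 1 : ℤ) = D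
    · rw [← hcoeff A n 1 D (by omega) hA' m hm, ← hcoeff T n 1 D (by omega) hTh m hm, hTe, ← hα,
        sub_eq_zero.1 hδ]
    · have a1 : coeff m A = 0 := by
        by_contra hne
        exact hm (hA' m hne)
      have a2 : coeff m T = 0 := by
        by_contra hne
        exact hm (hTh m hne)
      rw [a1, a2]

end Pool.Agent.W67.J6
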